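import Pool.Agent.W_895653_h19.Main4

/-!
# MP_895653_co: digraphs with a large biclique, dense digraphs

`StrongMinor D r`: strong complete minor on `r` vertices. `KStrong D k`: `k`-strongly-connected.
`HasBiclique D N`: two disjoint sets of `N` vertices, completely joined (each pair in at least one direction).

Connectivity `r` together with a large biclique, or with at least `n ^ (2 - 1 / (2 r))` arcs, forces the minor;
connectivity `r - 1` does not.
-/

set_option autoImplicit false

namespace Pool.Agent.Results.MP_895653_co.Bicliques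

open Pool.Agent.W895653

theorem result (r : ℕ) (hr : 2 ≤ r) :
    (∃ N : ℕ, ∀ (V : Type) [Fintype V] (D : V → V → Prop), (∀ v, ¬ D v v) →
      (HasBiclique D N ∨ (N ≤ Fintype.card V ∧
        (Fintype.card V : ℝ) ^ (2 - 1 / (2 * (r : ℝ))) ≤ (numArcs D : ℝ))) →
      KStrong D r → StrongMinor D r) ∧
    (∀ N : ℕ, ∃ (V : Type) (_ : Fintype V) (D : V → V → Prop), (∀ v, ¬ D v v) ∧
      HasBiclique D N ∧ (Fintype.card V) ^ 2 ≤ 17 * numArcs D ∧
      KStrong D (r - 1) ∧ ¬ StrongMinor D r) :=
  exact_dense r hr

end Pool.Agent.Results.MP_895653_co.Bicliques
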