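import Pool.Agent.W_895653_h19.Main2

/-!
# MP_895653_co: exact connectivity threshold for large digraphs of bounded independence number

`StrongMinor D r`: strong complete minor on `r` vertices. `KStrong D k`: `k`-strongly-connected.
`IndepLE D α`: every set of pairwise non-adjacent vertices has at most `α` elements.

For large order, connectivity `r - 1` forces the minor, and connectivity `r - 2` does not, even for tournaments.
-/

set_option autoImplicit false

namespace Pool.Agent.Results.MP_895653_co.BoundedIndependence

open Pool.Agent.W895653

theorem result (α r : ℕ) (hr : 2 ≤ r) : ∃ N : ℕ, ∀ n : ℕ, N ≤ n →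
    (∀ (V : Type) [Fintype V] (D : V → V → Prop), Fintype.card V = n → IndepLE D α →
      KStrong D (r - 1) → StrongMinor D r) ∧
    (∃ D : Fin n → Fin n → Prop, IsTournament D ∧ KStrong D (r - 2) ∧ ¬ StrongMinor D r) :=
  exact_indep α r hr

end Pool.Agent.Results.MP_895653_co.BoundedIndependence
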