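import Pool.Agent.W_895653_co.Sqrt

/-!
MP_895653_co: every `k`-strongly connected digraph with at most `k ^ 2 / (16 r ^ 2)` vertices
contains a strong complete minor on `r + 1` vertices.
-/

namespace Pool.Agent.Results.MP_895653_co.SqrtBound

open Pool.Agent.W895653

/-- Let `D` be a finite loopless digraph with `n` vertices which is `k`-strongly connected. If
`16 r ^ 2 n ≤ k ^ 2`, then `D` contains a strong complete minor on `r + 1` vertices. -/
theorem result {V : Type*} [Fintype V] (A : V → V → Prop) (hirr : ∀ v, ¬ A v v) (r k : ℕ)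
    (hk : KStrong A k) (h : 16 * r ^ 2 * Fintype.card V ≤ k ^ 2) :
    HasStrongMinor A (r + 1) :=
  sqrt_bound r k hirr hk h

end Pool.Agent.Results.MP_895653_co.SqrtBound
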